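import Pool.Agent.H67.Transv

/-! `per diag(T₁,T₂,T₅) = 12/625` is never a common transversal probability. -/

namespace Pool.Agent.Results.MP_e51b07_al.Counter

open MulAction Pool.Agent.H67.Transv
open scoped Nat Pointwise

/-- `diag(T_1,…,T_s)` with `T_i` the `t_i × t_i` matrix with all entries `1 / t_i` -/
def avg {s : ℕ} (t : Fin s → ℕ) : Matrix (Σ i, Fin (t i)) (Σ i, Fin (t i)) ℚ :=
  Matrix.blockDiagonal' fun i => Matrix.of fun _ _ => 1 / (t i : ℚ)

theorem per_avg {s : ℕ} (t : Fin s → ℕ) :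
    (avg t).permanent = ∏ i, ((t i)! : ℚ) * (1 / (t i : ℚ)) ^ t i := by
  classical
  have h := card_pres (X := Σ i, Fin (t i)) (Y := Σ i, Fin (t i)) Sigma.fst Sigma.fst fun _ => rfl
  have e : ∀ δ, Nat.card {x : Σ i, Fin (t i) // x.1 = δ} = t δ := fun δ => by
    rw [Nat.card_congr (Equiv.sigmaSubtype δ)]; simp
  simp only [e] at h
  rw [Matrix.permanent, Finset.sum_congr rfl (g := fun σ : Equiv.Perm (Σ i, Fin (t i)) =>
    if ∀ x, (σ x).1 = x.1 then ∏ i, (1 / (t i : ℚ)) ^ t i else 0) fun σ _ => ?_]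
  · rw [← Finset.sum_filter, Finset.sum_const, Finset.prod_mul_distrib, ← Nat.cast_prod, ← h,
      Nat.card_eq_fintype_card, Fintype.card_subtype, nsmul_eq_mul]
  · split_ifs with hσ
    · rw [Finset.prod_congr rfl (g := fun x : Σ i, Fin (t i) => 1 / (t x.1 : ℚ)) fun x _ => ?_]
      · rw [Fintype.prod_sigma]; simp
      · have := hσ x
        simp only [avg, Matrix.blockDiagonal'_apply, this, dif_pos, Matrix.of_apply]
    · push Not at hσ
      obtain ⟨x, hx⟩ := hσ
      refine Finset.prod_eq_zero (Finset.mem_univ x) ?_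
      simp only [avg, Matrix.blockDiagonal'_apply, hx, dif_neg, not_false_eq_true]

theorem big (t : ℕ) (ht : 6 ≤ t) : t ! * 625 < 12 * t ^ t := by
  induction t, ht using Nat.le_induction with
  | base => decide
  | succ t _ ih =>
    have : t ^ t ≤ (t + 1) ^ t := Nat.pow_le_pow_left (by omega) _
    rw [Nat.factorial_succ, pow_succ]; nlinarith

theorem counts {D : Type} [Fintype D] (t : D → ℕ) (h1 : ∀ δ, 1 ≤ t δ)
    (h : ∏ δ, ((t δ)! : ℚ) / (t δ : ℚ) ^ t δ = 12 / 625) :
    ∃ a b, t a = 2 ∧ t b = 5 ∧ ∀ δ, t δ = 1 ∨ δ = a ∨ δ = b := by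
  classical
  have hp : ∀ δ, (0 : ℚ) < (t δ : ℚ) ^ t δ := fun δ => by have := h1 δ; positivity
  have h5 : ∀ δ, t δ ≤ 5 := by
    intro δ
    by_contra hδ
    have hb : ((t δ)! : ℚ) * 625 < 12 * (t δ : ℚ) ^ t δ := by exact_mod_cast big _ (by omega)
    rw [← Finset.mul_prod_erase _ _ (Finset.mem_univ δ)] at h
    have h2 : ∏ x ∈ Finset.univ.erase δ, ((t x)! : ℚ) / (t x : ℚ) ^ t x ≤ 1 :=
      Finset.prod_le_one (fun _ _ => by positivity) fun x _ => by
        rw [div_le_one (hp x)]; exact_mod_cast Nat.factorial_le_pow _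
    have h3 : ((t δ)! : ℚ) / (t δ : ℚ) ^ t δ < 12 / 625 := by
      rw [div_lt_div_iff₀ (hp δ) (by norm_num)]; exact hb
    have h4 : (0 : ℚ) ≤ ((t δ)! : ℚ) / (t δ : ℚ) ^ t δ := by positivity
    nlinarith
  rw [← Finset.prod_fiberwise_of_maps_to (t := {1, 2, 3, 4, 5}) (g := t) fun δ _ => by
    have := h1 δ; have := h5 δ; simp; omega] at h
  have e : ∀ j, ∏ δ ∈ Finset.univ with t δ = j, ((t δ)! : ℚ) / (t δ : ℚ) ^ t δ =
      ((j ! : ℚ) / (j : ℚ) ^ j) ^ (Finset.univ.filter fun δ => t δ = j).card := fun j => by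
    rw [← Finset.prod_const]
    exact Finset.prod_congr rfl fun δ hδ => by rw [(Finset.mem_filter.1 hδ).2]
  simp only [e] at h
  rw [Finset.prod_insert (by decide), Finset.prod_insert (by decide),
    Finset.prod_insert (by decide), Finset.prod_insert (by decide), Finset.prod_singleton] at h
  set a := (Finset.univ.filter fun δ => t δ = 2).card with ha
  set b := (Finset.univ.filter fun δ => t δ = 3).card with hb
  set c := (Finset.univ.filter fun δ => t δ = 4).card with hc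
  set d := (Finset.univ.filter fun δ => t δ = 5).card with hd
  norm_num [Nat.factorial] at h
  have key : a = 1 ∧ b = 0 ∧ c = 0 ∧ d = 1 := by
    clear_value a b c d
    have hs : a + b + c + d ≤ 5 := by
      by_contra hs
      have k1 : (2 / 9 : ℚ) ^ b ≤ (1 / 2) ^ b := pow_le_pow_left₀ (by norm_num) (by norm_num) _
      have k2 : (3 / 32 : ℚ) ^ c ≤ (1 / 2) ^ c := pow_le_pow_left₀ (by norm_num) (by norm_num) _
      have k3 : (24 / 625 : ℚ) ^ d ≤ (1 / 2) ^ d := pow_le_pow_left₀ (by norm_num) (by norm_num) _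
      have k4 : (1 / 2 : ℚ) ^ (a + (b + (c + d))) ≤ (1 / 2) ^ 6 :=
        pow_le_pow_of_le_one (by norm_num) (by norm_num) (by omega)
      have k5 : (12 / 625 : ℚ) ≤ (1 / 2 : ℚ) ^ (a + (b + (c + d))) := by
        rw [← h, pow_add, pow_add, pow_add]; gcongr
      norm_num at k4 k5; linarith
    have : a ≤ 5 := by omega
    have : b ≤ 5 := by omega
    have : c ≤ 5 := by omega
    have : d ≤ 5 := by omega
    interval_cases a <;> interval_cases b <;> interval_cases c <;> interval_cases d <;>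
      first | omega | (exfalso; norm_num at h)
  obtain ⟨k2, k3, k4, k5⟩ := key
  obtain ⟨x, hx⟩ := Finset.card_eq_one.1 (ha ▸ k2)
  obtain ⟨y, hy⟩ := Finset.card_eq_one.1 (hd ▸ k5)
  have hx' := fun δ => Finset.ext_iff.1 hx δ
  have hy' := fun δ => Finset.ext_iff.1 hy δ
  have h3 := fun δ => Finset.ext_iff.1 (Finset.card_eq_zero.1 (hb ▸ k3)) δ
  have h4 := fun δ => Finset.ext_iff.1 (Finset.card_eq_zero.1 (hc ▸ k4)) δ
  simp at hx' hy' h3 h4
  refine ⟨x, y, (hx' x).2 rfl, (hy' y).2 rfl, fun δ => ?_⟩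
  have := h1 δ; have := h5 δ; have := h3 δ; have := h4 δ
  rw [← hx', ← hy']; omega

section
variable {G Ω : Type} [Group G] [Finite G] [MulAction G Ω]

theorem orb (M : Subgroup G) (x : Ω) :
    (orbit M x).ncard * Nat.card (stabilizer G x ⊓ M :) = Nat.card M := by
  rw [← index_stabilizer, mul_comm, ← Subgroup.card_mul_index (stabilizer M x)]
  congr 1
  exact Nat.card_congr ⟨fun g => ⟨⟨g.1, g.2.2⟩, g.2.1⟩, fun g => ⟨g.1.1, g.2, g.1.2⟩,
    fun _ => rfl, fun _ => rfl⟩

theorem orb_dvd (m : ℕ) (hm : ∀ x : Ω, Nat.card (stabilizer G x) = m) (M : Subgroup G) (ω x : Ω)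
    (h : stabilizer G ω ≤ M) : (orbit M ω).ncard ∣ (orbit M x).ncard := by
  have h1 := orb M ω
  have h2 := orb M x
  rw [inf_eq_left.2 h, hm] at h1
  obtain ⟨c, hc⟩ := Subgroup.card_dvd_of_le (inf_le_left : stabilizer G x ⊓ M ≤ _)
  rw [hm] at hc
  refine ⟨c, Nat.eq_of_mul_eq_mul_right (Nat.card_pos (α := (stabilizer G x ⊓ M :))) ?_⟩
  rw [h2, ← h1, hc]; ring

theorem le_norm (N S : Subgroup G) (h : N ≤ S) (hc : Nat.card S = 2 * Nat.card N) :
    S ≤ Subgroup.normalizer N := by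
  rw [← Subgroup.normal_subgroupOf_iff_le_normalizer h]
  apply Subgroup.normal_of_index_eq_two
  have := Subgroup.card_mul_index (N.subgroupOf S)
  rw [Nat.card_congr (Subgroup.subgroupOfEquivOfLe h).toEquiv, hc, mul_comm] at this
  exact Nat.eq_of_mul_eq_mul_right Nat.card_pos this

theorem grp [Finite Ω] (K : Subgroup G) (hm : ∀ x : Ω, Nat.card (stabilizer G x) = Nat.card K)
    (p q : Ω) (hp : (orbit K p).ncard = 2) (hq : (orbit K q).ncard = 5)
    (h : ∀ x, (orbit K x).ncard = 1 ∨ x ∈ orbit K p ∨ x ∈ orbit K q) : False := by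
  set N := stabilizer G p ⊓ K with hN
  have hK : Nat.card K = 2 * Nat.card N := by rw [← orb K p, hp]
  set L := Subgroup.normalizer (N : Set G) with hL
  have hKL : K ≤ L := le_norm N K inf_le_right hK
  have hfix : ∀ x : Ω, (orbit K x).ncard = 1 → stabilizer G x = K := fun x hx => by
    have := orb K x
    rw [hx, one_mul] at this
    have e1 := Subgroup.eq_of_le_of_card_ge (inf_le_right : stabilizer G x ⊓ K ≤ K) this.ge
    exact (Subgroup.eq_of_le_of_card_ge (inf_eq_right.1 e1) (hm x).le).symm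
  have hF : ∀ g ∈ L, ∀ x : Ω, N ≤ stabilizer G x → N ≤ stabilizer G (g • x) := by
    intro g hg x hx n hn
    have := hx (((Subgroup.mem_normalizer_iff''.1 hg) n).1 hn)
    rw [mem_stabilizer_iff] at this ⊢
    rw [mul_smul, mul_smul, inv_smul_eq_iff] at this
    exact this
  have horb : ∀ x y : Ω, x ∈ orbit K y → orbit K x = orbit K y := fun x y => orbit_eq_iff.2
  have hF5 : ∀ x : Ω, N ≤ stabilizer G x ↔ x ∉ orbit K q := by
    intro x
    constructor
    · intro hx hxq
      have h1 := orb K x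
      rw [horb x q hxq, hq, hK] at h1
      have h2 := Subgroup.card_le_of_le (le_inf hx inf_le_right : N ≤ stabilizer G x ⊓ K)
      have := Nat.card_pos (α := N)
      omega
    · intro hx
      rcases h x with h1 | ⟨k, rfl⟩ | h1
      · rw [hfix x h1]; exact inf_le_right
      · exact hF k (hKL k.2) p inf_le_left
      · exact absurd h1 hx
  have hLq : orbit L q = orbit K q := by
    refine Set.Subset.antisymm ?_ (by rintro _ ⟨k, rfl⟩; exact ⟨⟨k, hKL k.2⟩, rfl⟩)
    rintro _ ⟨g, rfl⟩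
    by_contra hg
    have := hF _ (L.inv_mem g.2) _ ((hF5 _).2 hg)
    rw [show (g : G)⁻¹ • g • q = q from inv_smul_smul _ _] at this
    exact (hF5 q).1 this (mem_orbit_self q)
  have hpL : stabilizer G p ≤ L := le_norm N _ inf_le_left ((hm p).trans hK)
  have h5 := orb_dvd _ hm L p q hpL
  rw [hLq, hq] at h5
  have hsub : orbit K p ⊆ orbit L p := by rintro _ ⟨k, rfl⟩; exact ⟨⟨k, hKL k.2⟩, rfl⟩
  have h2 := Set.ncard_le_ncard hsub
  have h5' : (orbit L p).ncard = 5 := by
    rcases (Nat.dvd_prime (by norm_num)).1 h5 with h | h <;> omega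
  have hx : ∀ x ∈ orbit L p, x ∉ orbit K p → stabilizer G x = K := by
    rintro _ ⟨g, rfl⟩ hx
    rcases h (g • p) with h1 | h1 | h1
    · exact hfix _ h1
    · exact absurd h1 hx
    · exact absurd h1 ((hF5 _).1 (hF g g.2 p inf_le_left))
  obtain ⟨ω, hω, hω'⟩ : ∃ ω ∈ orbit L p, ω ∉ orbit K p := by
    by_contra hc
    push Not at hc
    have := Set.ncard_le_ncard (show orbit L p ⊆ orbit K p from hc)
    omega
  set M := Subgroup.normalizer (K : Set G) ⊓ L with hM
  have hKM : K ≤ M := le_inf Subgroup.le_normalizer hKL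
  have hMp : orbit M p = orbit K p := by
    refine Set.Subset.antisymm ?_ (by rintro _ ⟨k, rfl⟩; exact ⟨⟨k, hKM k.2⟩, rfl⟩)
    rintro _ ⟨g, rfl⟩
    by_contra hg
    have h1 := hx _ ⟨⟨g, g.2.2⟩, rfl⟩ hg
    have h3 : K ≤ stabilizer G p := fun k hk => by
      have := h1.ge (((Subgroup.mem_normalizer_iff.1 g.2.1) k).1 hk)
      rw [mem_stabilizer_iff] at this ⊢
      change ((g : G) * k * (g : G)⁻¹) • (g : G) • p = (g : G) • p at this
      rwa [mul_smul, inv_smul_smul, mul_smul, smul_left_cancel_iff] at this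
    rw [inf_eq_right.2 h3] at hN
    have := Nat.card_pos (α := K)
    rw [hN] at hK
    omega
  have h6 := orb_dvd _ hm M ω p ((hx ω hω hω').le.trans hKM)
  rw [hMp, hp] at h6
  have h7 : orbit L p ⊆ orbit K p ∪ orbit M ω := by
    intro x hxL
    by_cases hxK : x ∈ orbit K p
    · exact Or.inl hxK
    · right
      have h1 := hx x hxL hxK
      rw [← orbit_eq_iff.2 hω] at hxL
      obtain ⟨g, rfl⟩ := hxL
      refine ⟨⟨g, Subgroup.mem_normalizer_iff.2 fun k => ?_, g.2⟩, rfl⟩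
      have h8 := hx ω hω hω'
      change k ∈ K ↔ _ ∈ K
      conv_lhs => rw [← h8]
      conv_rhs => rw [← h1]
      rw [mem_stabilizer_iff, mem_stabilizer_iff]
      change _ ↔ ((g : G) * k * (g : G)⁻¹) • (g : G) • ω = (g : G) • ω
      rw [mul_smul, inv_smul_smul, mul_smul, smul_left_cancel_iff]
  have h8 := (Set.ncard_le_ncard h7).trans (Set.ncard_union_le _ _)
  have := Nat.le_of_dvd two_pos h6
  omega

end

theorem result : ∃ (s : ℕ) (t : Fin s → ℕ), (∀ i, 1 ≤ t i) ∧ (∃ i, t i = 1) ∧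
    ∀ (G : Type) [Group G] [Finite G] (H K : Subgroup G), Nat.card H = Nat.card K →
      P H K ≠ (avg t).permanent := by
  refine ⟨3, ![1, 2, 5], by decide, ⟨0, rfl⟩, fun G _ _ H K hc h => ?_⟩
  haveI := Fintype.ofFinite (orbitRel.Quotient K (G ⧸ H))
  rw [formula H K hc, per_avg] at h
  have h' : ∏ i : Fin 3, (((![1, 2, 5] : Fin 3 → ℕ) i)! : ℚ) *
      (1 / ((![1, 2, 5] : Fin 3 → ℕ) i : ℚ)) ^ (![1, 2, 5] : Fin 3 → ℕ) i = 12 / 625 := by
    simp [Fin.prod_univ_succ, Nat.factorial]; norm_num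
  rw [h'] at h
  obtain ⟨⟨p⟩, ⟨q⟩, ha, hb, hδ⟩ := counts _ (fun δ => (Set.ncard_pos (Set.toFinite _)).2
    (orbitRel.Quotient.nonempty_orbit δ)) h
  refine grp K (fun x => ?_) p q ha hb fun x => ?_
  · rw [← hc]
    have h1 := Subgroup.card_mul_index (stabilizer G x)
    rw [index_stabilizer_of_transitive, ← Subgroup.card_mul_index H] at h1
    exact Nat.eq_of_mul_eq_mul_right Nat.card_pos h1
  · rcases hδ (Quotient.mk _ x) with h | h | h
    · exact Or.inl h
    · exact Or.inr (Or.inl (Quotient.exact h))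
    · exact Or.inr (Or.inr (Quotient.exact h))

end Pool.Agent.Results.MP_e51b07_al.Counter
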